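import Mathlib

/-!
Antidiagonal chains in subsets of `ℕ × ℕ`, their maximal lengths, and the local recursion that
identifies these lengths with the rank function of a Demazure product.
-/

namespace Pool.Agent.P.MP_eab1c6_co

open Classical

/-- A chain of length `L` in `E` with rows `< a` (decreasing) and columns in `[b, q)`
(increasing). -/
def Ch (E : ℕ × ℕ → Prop) (q L a b : ℕ) : Prop :=
  ∃ r c : ℕ → ℕ, (∀ x, x < L → r x < a ∧ b ≤ c x ∧ c x < q ∧ E (r x, c x)) ∧
    ∀ x y, x < y → y < L → r y < r x ∧ c x < c y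

lemma ch_zero (E : ℕ × ℕ → Prop) (q a b : ℕ) : Ch E q 0 a b :=
  ⟨fun _ => 0, fun _ => 0, fun x hx => by omega, fun x y _ hy => by omega⟩

lemma ch_succ_iff (E : ℕ × ℕ → Prop) (q L a b : ℕ) :
    Ch E q (L + 1) a b ↔ ∃ i j, i < a ∧ b ≤ j ∧ j < q ∧ E (i, j) ∧ Ch E q L i (j + 1) := by
  constructor
  · rintro ⟨r, c, h1, h2⟩
    obtain ⟨a1, a2, a3, a4⟩ := h1 0 (by omega)
    refine ⟨r 0, c 0, a1, a2, a3, a4, fun x => r (x + 1), fun x => c (x + 1), ?_, ?_⟩
    · intro x hx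
      obtain ⟨b1, b2, b3, b4⟩ := h1 (x + 1) (by omega)
      obtain ⟨c1, c2⟩ := h2 0 (x + 1) (by omega) (by omega)
      exact ⟨c1, c2, b3, b4⟩
    · intro x y hxy hy
      exact h2 (x + 1) (y + 1) (by omega) (by omega)
  · rintro ⟨i, j, a1, a2, a3, a4, r, c, h1, h2⟩
    refine ⟨fun x => Nat.casesOn x i r, fun x => Nat.casesOn x j c, ?_, ?_⟩
    · intro x hx
      cases x with
      | zero => exact ⟨a1, a2, a3, a4⟩
      | succ x =>
        obtain ⟨b1, b2, b3, b4⟩ := h1 x (by omega)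
        exact ⟨lt_trans b1 a1, le_trans a2 (le_trans (Nat.le_succ j) b2), b3, b4⟩
    · intro x y hxy hy
      cases y with
      | zero => omega
      | succ y =>
        cases x with
        | zero =>
          obtain ⟨b1, b2, b3, b4⟩ := h1 y (by omega)
          exact ⟨b1, b2⟩
        | succ x => exact h2 x y (by omega) (by omega)

lemma Ch.mono {E E' : ℕ × ℕ → Prop} {q q' L L' a a' b b' : ℕ} (h : Ch E q L a b)
    (hq : q ≤ q') (hL : L' ≤ L) (ha : a ≤ a') (hb : b' ≤ b)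
    (hE : ∀ i j, i < a → b ≤ j → j < q → E (i, j) → E' (i, j)) : Ch E' q' L' a' b' := by
  obtain ⟨r, c, h1, h2⟩ := h
  refine ⟨r, c, fun x hx => ?_, fun x y hxy hy => h2 x y hxy (by omega)⟩
  obtain ⟨b1, b2, b3, b4⟩ := h1 x (by omega)
  exact ⟨by omega, by omega, by omega, hE _ _ b1 b2 b3 b4⟩

lemma Ch.le_bound {E : ℕ × ℕ → Prop} {q L : ℕ} :
    ∀ {a b : ℕ}, Ch E q L a b → L ≤ a ∧ L ≤ q - b := by
  induction L with
  | zero => intro a b _; omega
  | succ L ih =>
    intro a b h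
    obtain ⟨i, j, a1, a2, a3, a4, h'⟩ := (ch_succ_iff E q L a b).1 h
    have := ih h'
    omega

/-- Maximal length of a chain. -/
noncomputable def mc (E : ℕ × ℕ → Prop) (q a b : ℕ) : ℕ :=
  Nat.findGreatest (fun L => Ch E q L a b) a

lemma ch_mc (E : ℕ × ℕ → Prop) (q a b : ℕ) : Ch E q (mc E q a b) a b :=
  Nat.findGreatest_spec (P := fun L => Ch E q L a b) (Nat.zero_le a) (ch_zero E q a b)

lemma le_mc_iff (E : ℕ × ℕ → Prop) (q L a b : ℕ) : L ≤ mc E q a b ↔ Ch E q L a b :=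
  ⟨fun h => (ch_mc E q a b).mono le_rfl h le_rfl le_rfl (fun _ _ _ _ _ h => h),
   fun h => Nat.le_findGreatest h.le_bound.1 h⟩

lemma mc_mono {E E' : ℕ × ℕ → Prop} {q a a' b b' : ℕ} (ha : a ≤ a') (hb : b' ≤ b)
    (hE : ∀ i j, i < a → b ≤ j → j < q → E (i, j) → E' (i, j)) :
    mc E q a b ≤ mc E' q a' b' :=
  (le_mc_iff _ _ _ _ _).2 ((ch_mc E q a b).mono le_rfl le_rfl ha hb hE)

lemma mc_congr {E E' : ℕ × ℕ → Prop} {q a b : ℕ}
    (hE : ∀ i j, i < a → b ≤ j → (E (i, j) ↔ E' (i, j))) : mc E q a b = mc E' q a b :=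
  le_antisymm (mc_mono le_rfl le_rfl fun i j h1 h2 _ h => (hE i j h1 h2).1 h)
    (mc_mono le_rfl le_rfl fun i j h1 h2 _ h => (hE i j h1 h2).2 h)

lemma mc_le_sub (E : ℕ × ℕ → Prop) (q a b : ℕ) : mc E q a b ≤ q - b :=
  (ch_mc E q a b).le_bound.2

lemma mc_le (E : ℕ × ℕ → Prop) (q a b : ℕ) : mc E q a b ≤ a :=
  (ch_mc E q a b).le_bound.1

lemma mc_corner_le (E : ℕ × ℕ → Prop) (q i j : ℕ) :
    mc E q (i + 1) j ≤ mc E q i (j + 1) + 1 := by
  rcases Nat.eq_zero_or_pos (mc E q (i + 1) j) with h | h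
  · omega
  · obtain ⟨L, hL⟩ : ∃ L, mc E q (i + 1) j = L + 1 := ⟨mc E q (i + 1) j - 1, by omega⟩
    have h1 := ch_mc E q (i + 1) j
    rw [hL, ch_succ_iff] at h1
    obtain ⟨i', j', a1, a2, a3, a4, h'⟩ := h1
    have : L ≤ mc E q i (j + 1) := (le_mc_iff _ _ _ _ _).2
      (h'.mono le_rfl le_rfl (by omega) (by omega) (fun _ _ _ _ _ h => h))
    omega

lemma mc_elbow {E : ℕ × ℕ → Prop} {q i j : ℕ} (h : E (i, j)) (hj : j < q) :
    mc E q (i + 1) j = mc E q i (j + 1) + 1 := by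
  refine le_antisymm (mc_corner_le E q i j) ?_
  rw [le_mc_iff, ch_succ_iff]
  exact ⟨i, j, by omega, le_rfl, hj, h, ch_mc E q i (j + 1)⟩

lemma mc_cross {E : ℕ × ℕ → Prop} {q i j : ℕ} (h : ¬ E (i, j)) :
    mc E q (i + 1) j ≤ mc E q i j ∨ mc E q (i + 1) j ≤ mc E q (i + 1) (j + 1) := by
  rcases Nat.eq_zero_or_pos (mc E q (i + 1) j) with h0 | h0
  · omega
  · obtain ⟨L, hL⟩ : ∃ L, mc E q (i + 1) j = L + 1 := ⟨mc E q (i + 1) j - 1, by omega⟩
    have h1 := ch_mc E q (i + 1) j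
    rw [hL, ch_succ_iff] at h1
    obtain ⟨i', j', a1, a2, a3, a4, h'⟩ := h1
    rw [hL, le_mc_iff, le_mc_iff, ch_succ_iff, ch_succ_iff]
    by_cases hi : i' < i
    · exact Or.inl ⟨i', j', hi, a2, a3, a4, h'⟩
    · have hi' : i' = i := by omega
      subst hi'
      have hj : j' ≠ j := by
        rintro rfl
        exact h a4
      exact Or.inr ⟨i', j', a1, by omega, a3, a4, h'⟩

/-- The rank function attached to the lattice point `(a, b)`. -/
noncomputable def rho (E : ℕ × ℕ → Prop) (q a b : ℕ) : ℕ := min b q + mc E q a b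

lemma rho_elbow {E : ℕ × ℕ → Prop} {i j : ℕ} (h : E (i, j)) (q : ℕ) :
    rho E q (i + 1) j = rho E q i (j + 1) := by
  unfold rho
  by_cases hj : j < q
  · rw [mc_elbow h hj]; omega
  · have h1 := mc_le_sub E q (i + 1) j
    have h2 := mc_le_sub E q i (j + 1)
    omega

lemma rho_cross {E : ℕ × ℕ → Prop} {i j : ℕ} (h : ¬ E (i, j)) (q : ℕ) :
    rho E q i j ≤ rho E q i (j + 1) ∧ rho E q i (j + 1) ≤ rho E q i j + 1 ∧
    rho E q i (j + 1) ≤ rho E q (i + 1) (j + 1) ∧
    rho E q (i + 1) (j + 1) ≤ rho E q i (j + 1) + 1 ∧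
    rho E q (i + 1) j =
      min (rho E q i (j + 1)) (rho E q i j + rho E q (i + 1) (j + 1) - rho E q i (j + 1)) := by
  unfold rho
  have h1 := mc_cross (q := q) h
  have h2 := mc_corner_le E q i j
  have h3 : mc E q i (j + 1) ≤ mc E q i j := mc_mono le_rfl (by omega) (fun _ _ _ _ _ h => h)
  have h4 : mc E q i (j + 1) ≤ mc E q (i + 1) (j + 1) :=
    mc_mono (by omega) le_rfl (fun _ _ _ _ _ h => h)
  have h5 : mc E q i j ≤ mc E q (i + 1) j := mc_mono (by omega) le_rfl (fun _ _ _ _ _ h => h)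
  have h6 : mc E q (i + 1) (j + 1) ≤ mc E q (i + 1) j :=
    mc_mono le_rfl (by omega) (fun _ _ _ _ _ h => h)
  have h7 := mc_le_sub E q (i + 1) j
  omega

/-- Rank function of a map `w`: the number of `x < t` with `w x < q`. -/
def rk (w : ℕ → ℕ) (q : ℕ) : ℕ → ℕ
  | 0 => 0
  | t + 1 => rk w q t + if w t < q then 1 else 0

lemma rk_succ (w : ℕ → ℕ) (q t : ℕ) :
    rk w q (t + 1) = rk w q t + if w t < q then 1 else 0 := rfl

/-- Swap positions `s` and `s + 1`. -/
def sw (s x : ℕ) : ℕ := if x = s then s + 1 else if x = s + 1 then s else x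

lemma sw_sw (s x : ℕ) : sw s (sw s x) = x := by
  unfold sw; split_ifs <;> omega

lemma sw_inj (s : ℕ) : Function.Injective (sw s) :=
  Function.LeftInverse.injective (g := sw s) (sw_sw s)

lemma rk_sw_le (w : ℕ → ℕ) (q s : ℕ) : ∀ t, t ≤ s → rk (w ∘ sw s) q t = rk w q t := by
  intro t
  induction t with
  | zero => intro _; rfl
  | succ t ih =>
    intro ht
    have : sw s t = t := by unfold sw; split_ifs <;> omega
    rw [rk_succ, rk_succ, ih (by omega), Function.comp_apply, this]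

lemma rk_sw_mid (w : ℕ → ℕ) (q s : ℕ) :
    rk (w ∘ sw s) q (s + 1) = rk w q s + if w (s + 1) < q then 1 else 0 := by
  have : sw s s = s + 1 := by unfold sw; simp
  rw [rk_succ, rk_sw_le w q s s le_rfl, Function.comp_apply, this]

lemma rk_sw_ge (w : ℕ → ℕ) (q s : ℕ) : ∀ t, s + 2 ≤ t → rk (w ∘ sw s) q t = rk w q t := by
  intro t ht
  induction t, ht using Nat.le_induction with
  | base =>
    have : sw s (s + 1) = s := by unfold sw; simp
    rw [rk_succ, rk_sw_mid, Function.comp_apply, this, rk_succ, rk_succ]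
    omega
  | succ t ht ih =>
    have : sw s t = t := by unfold sw; split_ifs <;> omega
    rw [rk_succ, rk_succ, ih, Function.comp_apply, this]

lemma rk_sw_ne (w : ℕ → ℕ) (q s t : ℕ) (h : t ≠ s + 1) : rk (w ∘ sw s) q t = rk w q t := by
  by_cases ht : t ≤ s
  · exact rk_sw_le w q s t ht
  · exact rk_sw_ge w q s t (by omega)

lemma rk_le (w : ℕ → ℕ) (q : ℕ) : ∀ t, rk w q t ≤ t := by
  intro t
  induction t with
  | zero => exact le_rfl
  | succ t ih => rw [rk_succ]; split_ifs <;> omega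

lemma lt_of_rk (w : ℕ → ℕ) (q t : ℕ) (h : t + 1 ≤ rk w q (t + 1)) : w t < q := by
  rw [rk_succ] at h
  have := rk_le w q t
  split_ifs at h with h'
  · exact h'
  · omega

lemma rk_id (q : ℕ) : ∀ t, rk id q t = min t q := by
  intro t
  induction t with
  | zero => simp [rk]
  | succ t ih => rw [rk_succ, ih]; simp only [id]; split_ifs <;> omega

/-- Number of inversions among the first `T` positions. -/
noncomputable def inv (T : ℕ) (w : ℕ → ℕ) : ℕ :=
  ((Finset.range T ×ˢ Finset.range T).filter fun p => p.1 < p.2 ∧ w p.2 < w p.1).card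

lemma inv_sw (T s : ℕ) (w : ℕ → ℕ) (hs : s + 2 ≤ T) (hd : w (s + 1) < w s) :
    inv T w = inv T (w ∘ sw s) + 1 := by
  unfold inv
  have hmem : (s, s + 1) ∈ ((Finset.range T ×ˢ Finset.range T).filter
      fun p => p.1 < p.2 ∧ w p.2 < w p.1) := by
    simp only [Finset.mem_filter, Finset.mem_product, Finset.mem_range]
    omega
  rw [← Finset.card_erase_add_one hmem]
  congr 1
  have hss : sw s s = s + 1 := by unfold sw; simp
  have hss' : sw s (s + 1) = s := by unfold sw; simp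
  refine Finset.card_nbij' (fun p => (sw s p.1, sw s p.2)) (fun p => (sw s p.1, sw s p.2))
    ?_ ?_ ?_ ?_
  · rintro ⟨x, y⟩ h
    simp only [Finset.coe_erase, Finset.coe_filter, Finset.mem_product, Finset.mem_range,
      Set.mem_sdiff, Set.mem_ofPred_eq, Set.mem_singleton_iff, Prod.mk.injEq] at h
    simp only [Finset.coe_filter, Finset.mem_product, Finset.mem_range, Set.mem_ofPred_eq,
      Function.comp_apply, sw_sw]
    refine ⟨⟨?_, ?_⟩, ?_, h.1.2.2⟩ <;> unfold sw <;> split_ifs <;> omega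
  · rintro ⟨x, y⟩ h
    simp only [Finset.coe_filter, Finset.mem_product, Finset.mem_range, Set.mem_ofPred_eq,
      Function.comp_apply] at h
    simp only [Finset.coe_erase, Finset.coe_filter, Finset.mem_product, Finset.mem_range,
      Set.mem_sdiff, Set.mem_ofPred_eq, Set.mem_singleton_iff, Prod.mk.injEq]
    have hne : ¬ (x = s ∧ y = s + 1) := by
      rintro ⟨rfl, rfl⟩
      rw [hss, hss'] at h
      omega
    refine ⟨⟨⟨?_, ?_⟩, ?_, h.2.2⟩, ?_⟩ <;> unfold sw <;> split_ifs <;> omega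
  · rintro ⟨x, y⟩ _
    simp only [sw_sw]
  · rintro ⟨x, y⟩ _
    simp only [sw_sw]

lemma inv_eq_zero (T : ℕ) (w : ℕ → ℕ) (hw : Function.Injective w)
    (h : ∀ t, t ≤ T → ∀ q, min t q ≤ rk w q t) : inv T w = 0 := by
  have h1 : ∀ x, x < T → w x = x := by
    intro x
    induction x using Nat.strong_induction_on with
    | _ x ih =>
      intro hx
      have h2 : w x < x + 1 := lt_of_rk w (x + 1) x (by simpa using h (x + 1) hx (x + 1))
      by_contra hne
      have h3 : w x < x := by omega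
      have h4 := ih (w x) h3 (by omega)
      have := hw h4
      omega
  unfold inv
  rw [Finset.card_eq_zero, Finset.filter_eq_empty_iff]
  rintro ⟨x, y⟩ hp
  simp only [Finset.mem_product, Finset.mem_range] at hp
  simp only [h1 x hp.1, h1 y hp.2]
  omega

end Pool.Agent.P.MP_eab1c6_co
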