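import Pool.Agent.P.MP_eab1c6_co.Purity

/-!
Size of the saturated sets, in coordinates in `ℕ × ℕ`.
-/

namespace Pool.Agent.P.MP_eab1c6_co

open Classical

/-- No element `a` of `G` has a chain of length `L` of `G` in its (closed for `e = 1`, open for
`e = 0`) rectangle. -/
def Av (e L : ℕ) (G : Finset (ℕ × ℕ)) : Prop :=
  ∀ a ∈ G, ¬ Ch (fun x => x ∈ G) (a.2 + e) L (a.1 + e) 0

lemma card_box_filter (n m k : ℕ) :
    ((Finset.range n ×ˢ Finset.range m).filter fun p => k ≤ p.1 ∧ k ≤ p.2).card =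
      (n - k) * (m - k) := by
  have : ((Finset.range n ×ˢ Finset.range m).filter fun p => k ≤ p.1 ∧ k ≤ p.2) =
      Finset.Ico k n ×ˢ Finset.Ico k m := by
    ext ⟨x, y⟩
    simp only [Finset.mem_filter, Finset.mem_product, Finset.mem_range, Finset.mem_Ico]
    omega
  rw [this, Finset.card_product, Nat.card_Ico, Nat.card_Ico]

theorem card_saturated (n m k e : ℕ) (he : e ≤ 1) (hk : 1 ≤ k) (G : Finset (ℕ × ℕ))
    (hG : G ⊆ Finset.range n ×ˢ Finset.range m) (h1 : Av e (k + e) G)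
    (h2 : ∀ p ∈ Finset.range n ×ˢ Finset.range m, p ∉ G → ¬ Av e (k + e) (insert p G)) :
    G.card = n * m - (n - k) * (m - k) := by
  set B := Finset.range n ×ˢ Finset.range m with hB
  have hBm : ∀ p : ℕ × ℕ, p ∈ B ↔ p.1 < n ∧ p.2 < m := fun p => by
    simp only [hB, Finset.mem_product, Finset.mem_range]
  set U := B.filter fun p => ∃ a ∈ G, p.1 ≤ a.1 ∧ p.2 ≤ a.2 with hU
  set S := B.filter fun p => ∃ a ∈ G, p.1 < a.1 + e ∧ p.2 < a.2 + e with hS
  have hUm : ∀ p : ℕ × ℕ, p ∈ U ↔ ∃ a ∈ G, p.1 ≤ a.1 ∧ p.2 ≤ a.2 := fun p => by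
    simp only [hU, Finset.mem_filter]
    refine ⟨fun h => h.2, fun h => ⟨?_, h⟩⟩
    obtain ⟨a, ha, h⟩ := h
    have := (hBm a).1 (hG ha)
    rw [hBm]
    omega
  have hSm : ∀ p : ℕ × ℕ, p ∈ S ↔ ∃ a ∈ G, p.1 < a.1 + e ∧ p.2 < a.2 + e := fun p => by
    simp only [hS, Finset.mem_filter]
    refine ⟨fun h => h.2, fun h => ⟨?_, h⟩⟩
    obtain ⟨a, ha, h⟩ := h
    have := (hBm a).1 (hG ha)
    rw [hBm]
    omega
  have hSU : S ⊆ U := fun p hp => by
    obtain ⟨a, ha, h⟩ := (hSm p).1 hp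
    exact (hUm p).2 ⟨a, ha, by omega⟩
  have hGU : G ⊆ U := fun p hp => (hUm p).2 ⟨p, hp, le_rfl, le_rfl⟩
  -- adding a point of `U` creates a chain in the rectangle of a point of `G`
  have hadd : ∀ p ∈ U, p ∉ G →
      ∃ a ∈ G, Ch (fun x => x ∈ insert p G) (a.2 + e) (k + e) (a.1 + e) 0 := by
    intro p hp hpG
    have := h2 p (Finset.filter_subset _ _ hp) hpG
    unfold Av at this
    push Not at this
    obtain ⟨a, ha, hch⟩ := this
    rcases Finset.mem_insert.1 ha with rfl | ha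
    · obtain ⟨a', ha', h⟩ := (hUm a).1 hp
      exact ⟨a', ha', hch.mono (by omega) le_rfl (by omega) le_rfl (fun _ _ _ _ _ h => h)⟩
    · exact ⟨a, ha, hch⟩
  have hout : ∀ p : ℕ × ℕ, p ∉ S → ∀ a ∈ G,
      ¬ Ch (fun x => x ∈ insert p G) (a.2 + e) (k + e) (a.1 + e) 0 := by
    intro p hp a ha hch
    refine h1 a ha (hch.mono le_rfl le_rfl le_rfl le_rfl fun i j hi _ hj hij => ?_)
    rcases Finset.mem_insert.1 hij with h | h
    · exact absurd ((hSm p).2 ⟨a, ha, by rw [← h]; exact ⟨hi, hj⟩⟩) hp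
    · exact h
  have hUS : ∀ p ∈ U, p ∉ S → p ∈ G := by
    intro p hp hpS
    by_contra hpG
    obtain ⟨a, ha, hch⟩ := hadd p hp hpG
    exact hout p hpS a ha hch
  have hBU : ∀ p ∈ B, (p.1 < k ∨ p.2 < k) → p ∈ U := by
    intro p hp hpk
    by_contra hpU
    have := h2 p hp fun h => hpU (hGU h)
    unfold Av at this
    push Not at this
    obtain ⟨a, ha, hch⟩ := this
    rcases Finset.mem_insert.1 ha with rfl | ha
    · have := hch.le_bound
      omega
    · exact hout p (fun h => hpU (hSU h)) a ha hch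
  have hSlow : ∀ p ∈ S, ∀ p' : ℕ × ℕ, p'.1 ≤ p.1 → p'.2 ≤ p.2 → p' ∈ S := by
    intro p hp p' h h'
    obtain ⟨a, ha, h⟩ := (hSm p).1 hp
    exact (hSm p').2 ⟨a, ha, by omega⟩
  have hpur := purity (k + e - 1) S (S \ G) hSlow Finset.sdiff_subset (by
    intro p hp hch
    obtain ⟨a, ha, h⟩ := (hSm p).1 hp
    refine h1 a ha (hch.mono (by omega) (by omega) (by omega) le_rfl fun i j hi _ hj hij => ?_)
    by_contra hG'
    exact hij (Finset.mem_sdiff.2 ⟨hSlow p hp (i, j) (by show i ≤ p.1; omega)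
      (by show j ≤ p.2; omega), hG'⟩)) (by
    intro d hd H
    obtain ⟨hdS, hdG⟩ := Finset.mem_sdiff.1 hd
    obtain ⟨a, ha, hch⟩ := hadd d (hSU hdS) hdG
    have hb := hch.le_bound
    refine H (a.1 + e - 1, a.2 + e - 1) ((hSm _).2 ⟨a, ha, ?_, ?_⟩)
      (hch.mono ?_ (by omega) ?_ le_rfl fun i j _ _ _ hij hh => ?_)
    · show a.1 + e - 1 < a.1 + e
      omega
    · show a.2 + e - 1 < a.2 + e
      omega
    · show a.2 + e ≤ a.2 + e - 1 + 1
      omega
    · show a.1 + e ≤ a.1 + e - 1 + 1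
      omega
    · obtain ⟨h3, h4⟩ := Finset.mem_erase.1 hh
      rcases Finset.mem_insert.1 hij with h | h
      · exact h3 h
      · exact (Finset.mem_sdiff.1 h4).2 h)
  have hshift : (S.filter fun p => k + e - 1 ≤ p.1 ∧ k + e - 1 ≤ p.2).card =
      (U.filter fun p => k ≤ p.1 ∧ k ≤ p.2).card := by
    refine Finset.card_nbij' (fun p => (p.1 + (1 - e), p.2 + (1 - e)))
      (fun p => (p.1 - (1 - e), p.2 - (1 - e))) ?_ ?_ ?_ ?_
    · rintro ⟨x, y⟩ h
      simp only [Finset.coe_filter, Set.mem_ofPred_eq] at h ⊢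
      obtain ⟨a, ha, h'⟩ := (hSm _).1 h.1
      simp only at h'
      refine ⟨(hUm _).2 ⟨a, ha, ?_, ?_⟩, ?_, ?_⟩ <;> (try simp only) <;> omega
    · rintro ⟨x, y⟩ h
      simp only [Finset.coe_filter, Set.mem_ofPred_eq] at h ⊢
      obtain ⟨a, ha, h'⟩ := (hUm _).1 h.1
      simp only at h'
      refine ⟨(hSm _).2 ⟨a, ha, ?_, ?_⟩, ?_, ?_⟩ <;> (try simp only) <;> omega
    · rintro ⟨x, y⟩ _
      simp
    · rintro ⟨x, y⟩ h
      simp only [Finset.coe_filter, Set.mem_ofPred_eq] at h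
      simp only [Prod.mk.injEq]
      omega
  have hSG : S \ G = U \ G := by
    ext p
    simp only [Finset.mem_sdiff]
    constructor
    · rintro ⟨h, h'⟩
      exact ⟨hSU h, h'⟩
    · rintro ⟨h, h'⟩
      refine ⟨?_, h'⟩
      by_contra hp
      exact h' (hUS p h hp)
  have e1 : (U \ G).card + G.card = U.card := Finset.card_sdiff_add_card_eq_card hGU
  have e2 := Finset.card_filter_add_card_filter_not (s := U) (fun p => k ≤ p.1 ∧ k ≤ p.2)
  have e3 := Finset.card_filter_add_card_filter_not (s := B) (fun p => k ≤ p.1 ∧ k ≤ p.2)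
  have e4 : (U.filter fun p => ¬ (k ≤ p.1 ∧ k ≤ p.2)) =
      (B.filter fun p => ¬ (k ≤ p.1 ∧ k ≤ p.2)) := by
    ext p
    simp only [Finset.mem_filter (s := U), Finset.mem_filter (s := B)]
    constructor
    · rintro ⟨h, h'⟩
      exact ⟨Finset.filter_subset _ _ h, h'⟩
    · rintro ⟨h, h'⟩
      exact ⟨hBU p h (by omega), h'⟩
  have e5 : B.card = n * m := by simp [hB]
  have e6 := card_box_filter n m k
  rw [← hB] at e6
  rw [hSG, hshift] at hpur
  rw [e4] at e2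
  omega

/-- Extremal and saturation numbers agree when all saturated sets have the same size. -/
lemma sSup_sInf_eq {α : Type} [Fintype α] [DecidableEq α] (Bad : Finset α → Prop) (v : ℕ)
    (h0 : ¬ Bad ∅)
    (h : ∀ A, ¬ Bad A → (∀ p, p ∉ A → Bad (insert p A)) → A.card = v) :
    sSup {t | ∃ A, ¬ Bad A ∧ A.card = t} = v ∧
      sInf {t | ∃ A, ¬ Bad A ∧ (∀ p, p ∉ A → Bad (insert p A)) ∧ A.card = t} = v := by
  obtain ⟨A, hA, hmax⟩ := Finset.exists_max_image
    ((Finset.univ : Finset (Finset α)).filter fun A => ¬ Bad A) Finset.card ⟨∅, by simpa⟩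
  simp only [Finset.mem_filter, Finset.mem_univ, true_and] at hA hmax
  have hsat : ∀ p, p ∉ A → Bad (insert p A) := by
    intro p hp
    by_contra hb
    have := hmax _ hb
    rw [Finset.card_insert_of_notMem hp] at this
    omega
  have hv := h A hA hsat
  constructor
  · refine IsGreatest.csSup_eq ⟨⟨A, hA, hv⟩, ?_⟩
    rintro t ⟨A', hA', rfl⟩
    exact hv ▸ hmax A' hA'
  · refine IsLeast.csInf_eq ⟨⟨A, hA, hsat, hv⟩, ?_⟩
    rintro t ⟨A', hA', hs, rfl⟩
    exact (h A' hA' hs).ge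

end Pool.Agent.P.MP_eab1c6_co
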