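import Pool.Agent.P.MP_eab1c6_co.Chains

/-!
Purity: all inclusion-minimal sets `D` meeting every chain of length `k + 1` whose bounding
rectangle lies in a Ferrers shape have the same size.
-/

namespace Pool.Agent.P.MP_eab1c6_co

open Classical

/-- Rank array of the state in which rows `< i` and the cells of row `i` with column `≥ j`
have been read. -/
noncomputable def St (D : Finset (ℕ × ℕ)) (i j t q : ℕ) : ℕ :=
  if t ≤ i + j then rho (fun p => p ∉ D) q (min t i) (t - i)
  else rho (fun p => p ∉ D) q (i + 1) (t - (i + 1))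

/-- The cells read in state `(i, j)`. -/
def Reg (i j : ℕ) (p : ℕ × ℕ) : Prop := p.1 < i ∨ (p.1 = i ∧ j ≤ p.2)

/-- The state lies above `w` in the Bruhat order. -/
def Cond (T : ℕ) (D : Finset (ℕ × ℕ)) (i j : ℕ) (w : ℕ → ℕ) : Prop :=
  ∀ t, t ≤ T → ∀ q, St D i j t q ≤ rk w q t

lemma St_ne (D : Finset (ℕ × ℕ)) (i j t q : ℕ) (h : t ≠ i + j + 1) :
    St D i j t q = St D i (j + 1) t q := by
  unfold St
  by_cases h1 : t ≤ i + j
  · rw [if_pos h1, if_pos (by omega)]
  · rw [if_neg h1, if_neg (by omega)]

lemma St_new (D : Finset (ℕ × ℕ)) (i j q : ℕ) :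
    St D i j (i + j + 1) q = rho (fun p => p ∉ D) q (i + 1) j := by
  unfold St
  rw [if_neg (by omega)]
  congr 1
  omega

lemma St_old (D : Finset (ℕ × ℕ)) (i j q : ℕ) :
    St D i (j + 1) (i + j + 1) q = rho (fun p => p ∉ D) q i (j + 1) := by
  unfold St
  rw [if_pos (by omega)]
  congr 1 <;> omega

lemma St_prev (D : Finset (ℕ × ℕ)) (i j q : ℕ) :
    St D i (j + 1) (i + j) q = rho (fun p => p ∉ D) q i j := by
  unfold St
  rw [if_pos (by omega)]
  congr 1 <;> omega

lemma St_next (D : Finset (ℕ × ℕ)) (i j q : ℕ) :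
    St D i (j + 1) (i + j + 1 + 1) q = rho (fun p => p ∉ D) q (i + 1) (j + 1) := by
  unfold St
  rw [if_neg (by omega)]
  congr 1
  omega

lemma St_elbow {D : Finset (ℕ × ℕ)} {i j : ℕ} (h : (i, j) ∉ D) (t q : ℕ) :
    St D i j t q = St D i (j + 1) t q := by
  by_cases ht : t = i + j + 1
  · subst ht
    rw [St_new, St_old]
    exact rho_elbow (E := fun p => p ∉ D) h q
  · exact St_ne D i j t q ht

lemma St_erase (D : Finset (ℕ × ℕ)) (i j t q : ℕ) :
    St (D.erase (i, j)) i (j + 1) t q = St D i (j + 1) t q := by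
  unfold St rho
  split_ifs with h
  · congr 1
    refine mc_congr fun x y h1 _ => ?_
    simp only [Finset.mem_erase, ne_eq, Prod.mk.injEq]
    have : x ≠ i := by omega
    tauto
  · congr 1
    refine mc_congr fun x y _ h2 => ?_
    simp only [Finset.mem_erase, ne_eq, Prod.mk.injEq]
    have : y ≠ j := by omega
    tauto

lemma St_row (D : Finset (ℕ × ℕ)) (T i t q : ℕ) (ht : t ≤ T) :
    St D (i + 1) T t q = St D i 0 t q := by
  unfold St
  rw [if_pos (by omega)]
  split_ifs with h
  · congr 1 <;> omega
  · congr 1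
    omega

lemma St_base (D : Finset (ℕ × ℕ)) (T t q : ℕ) (ht : t ≤ T) : St D 0 T t q = min t q := by
  unfold St rho
  rw [if_pos (by omega)]
  have := mc_le (fun p => p ∉ D) q (min t 0) (t - 0)
  omega

lemma St_final (D : Finset (ℕ × ℕ)) (T t q : ℕ) (ht : t ≤ T) :
    St D T T t q = mc (fun p => p ∉ D) q t 0 := by
  unfold St rho
  rw [if_pos (by omega), min_eq_left ht, Nat.sub_eq_zero_of_le ht]
  simp

lemma cond_elbow {T : ℕ} {D : Finset (ℕ × ℕ)} {i j : ℕ} (h : (i, j) ∉ D) (w : ℕ → ℕ) :
    Cond T D i j w ↔ Cond T D i (j + 1) w := by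
  unfold Cond
  simp only [St_elbow h]

/-- The lifting property, in terms of rank arrays. -/
lemma cond_cross {T : ℕ} {D : Finset (ℕ × ℕ)} {i j : ℕ} (h : (i, j) ∈ D) (hT : i + j + 2 ≤ T)
    (w w' : ℕ → ℕ) (hw : ∀ q t, t ≠ i + j + 1 → rk w' q t = rk w q t)
    (hw' : ∀ q, rk w' q (i + j + 1) =
      rk w q (i + j) + if w (i + j) < q ∨ w (i + j + 1) < q then 1 else 0) :
    Cond T D i j w ↔ Cond T D i (j + 1) w' := by
  have hc := fun q => rho_cross (E := fun p => p ∉ D) (i := i) (j := j) (not_not.2 h) q
  constructor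
  · intro H t ht q
    by_cases htt : t = i + j + 1
    · subst htt
      have h1 := H (i + j) (by omega) q
      have h2 := H (i + j + 1) (by omega) q
      have h3 := H (i + j + 1 + 1) (by omega) q
      rw [St_ne D i j _ q (by omega), St_prev] at h1
      rw [St_ne D i j _ q (by omega), St_next, rk_succ, rk_succ] at h3
      rw [St_new, rk_succ] at h2
      rw [St_old, hw']
      have := hc q
      split_ifs at h2 h3 ⊢ <;> omega
    · rw [← St_ne D i j t q htt, hw q t htt]
      exact H t ht q
  · intro H t ht q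
    by_cases htt : t = i + j + 1
    · subst htt
      have h1 := H (i + j) (by omega) q
      have h2 := H (i + j + 1) (by omega) q
      have h3 := H (i + j + 1 + 1) (by omega) q
      rw [St_prev, hw q _ (by omega)] at h1
      rw [St_next, hw q _ (by omega), rk_succ, rk_succ] at h3
      rw [St_old, hw'] at h2
      rw [St_new, rk_succ]
      have := hc q
      split_ifs at h2 h3 ⊢ <;> omega
    · rw [St_ne D i j t q htt, ← hw q t htt]
      exact H t ht q

lemma cond_asc {T : ℕ} {D : Finset (ℕ × ℕ)} {i j : ℕ} (h : (i, j) ∈ D) (hT : i + j + 2 ≤ T)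
    (w : ℕ → ℕ) (ha : w (i + j) < w (i + j + 1)) : Cond T D i j w ↔ Cond T D i (j + 1) w := by
  refine cond_cross h hT w w (fun _ _ _ => rfl) fun q => ?_
  rw [rk_succ]
  split_ifs <;> omega

lemma cond_desc {T : ℕ} {D : Finset (ℕ × ℕ)} {i j : ℕ} (h : (i, j) ∈ D) (hT : i + j + 2 ≤ T)
    (w : ℕ → ℕ) (ha : w (i + j + 1) < w (i + j)) :
    Cond T D i j w ↔ Cond T D i (j + 1) (w ∘ sw (i + j)) := by
  refine cond_cross h hT w _ (fun q t ht => rk_sw_ne w q _ t ht) fun q => ?_
  rw [rk_sw_mid]
  split_ifs <;> omega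

lemma state_induction (T : ℕ) (P : ℕ → ℕ → Prop) (h0 : P 0 T)
    (h1 : ∀ i j, P i (j + 1) → P i j) (h2 : ∀ i, P i 0 → P (i + 1) T) : ∀ i, P i T := by
  intro i
  induction i with
  | zero => exact h0
  | succ i ih =>
    refine h2 i ?_
    have : ∀ d, d ≤ T → P i (T - d) := by
      intro d
      induction d with
      | zero => intro _; exact ih
      | succ d ihd =>
        intro hd
        refine h1 i _ ?_
        have e : T - (d + 1) + 1 = T - d := by omega
        rw [e]
        exact ihd (by omega)
    simpa using this T le_rfl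

/-- Minimal sets for the condition attached to `w` have as many cells as `w` has inversions. -/
lemma card_eq_inv (T : ℕ) (D : Finset (ℕ × ℕ)) (hD : ∀ p ∈ D, p.1 + p.2 + 2 ≤ T) :
    ∀ i, ∀ w : ℕ → ℕ, Function.Injective w → Cond T D i T w →
      (∀ d ∈ D, Reg i T d → ¬ Cond T (D.erase d) i T w) →
      (D.filter (Reg i T)).card = inv T w := by
  refine state_induction T (fun i j => ∀ w : ℕ → ℕ, Function.Injective w → Cond T D i j w →
      (∀ d ∈ D, Reg i j d → ¬ Cond T (D.erase d) i j w) →
      (D.filter (Reg i j)).card = inv T w) ?_ ?_ ?_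
  · intro w hw hc _
    rw [inv_eq_zero T w hw (fun t ht q => by rw [← St_base D T t q ht]; exact hc t ht q),
      Finset.card_eq_zero, Finset.filter_eq_empty_iff]
    intro p hp
    have := hD p hp
    unfold Reg
    omega
  · intro i j ih w hw hc hmin
    have hreg : ∀ d, Reg i (j + 1) d → Reg i j d := fun d hd => by unfold Reg at *; omega
    by_cases h : (i, j) ∈ D
    · have hT : i + j + 2 ≤ T := hD _ h
      have hne : w (i + j) ≠ w (i + j + 1) := fun e => by have := hw e; omega
      rcases lt_or_gt_of_ne hne with ha | ha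
      · exfalso
        refine hmin (i, j) h (Or.inr ⟨rfl, le_rfl⟩) ?_
        rw [cond_elbow (Finset.notMem_erase _ _)]
        have := (cond_asc h hT w ha).1 hc
        intro t ht q
        rw [St_erase]
        exact this t ht q
      · have e : D.filter (Reg i j) = insert (i, j) (D.filter (Reg i (j + 1))) := by
          ext ⟨x, y⟩
          simp only [Finset.mem_filter, Finset.mem_insert, Prod.mk.injEq, Reg]
          constructor
          · rintro ⟨h1, h2⟩
            by_cases hxy : x = i ∧ y = j
            · exact Or.inl hxy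
            · exact Or.inr ⟨h1, by omega⟩
          · rintro (⟨rfl, rfl⟩ | ⟨h1, h2⟩)
            · exact ⟨h, by omega⟩
            · exact ⟨h1, by omega⟩
        rw [e, Finset.card_insert_of_notMem (by simp [Reg]), inv_sw T (i + j) w hT ha]
        congr 1
        refine ih _ (hw.comp (sw_inj _)) ((cond_desc h hT w ha).1 hc) ?_
        intro d hd hr hcond
        refine hmin d hd (hreg d hr) ?_
        have hdne : (i, j) ≠ d := by
          rintro rfl
          unfold Reg at hr
          omega
        exact (cond_desc (Finset.mem_erase.2 ⟨hdne, h⟩) hT w ha).2 hcond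
    · have e : D.filter (Reg i j) = D.filter (Reg i (j + 1)) := by
        ext ⟨x, y⟩
        simp only [Finset.mem_filter, Reg]
        constructor
        · rintro ⟨h1, h2⟩
          have : ¬ (x = i ∧ y = j) := by
            rintro ⟨rfl, rfl⟩
            exact h h1
          exact ⟨h1, by omega⟩
        · rintro ⟨h1, h2⟩
          exact ⟨h1, by omega⟩
      rw [e]
      refine ih w hw ((cond_elbow h w).1 hc) ?_
      intro d hd hr hcond
      refine hmin d hd (hreg d hr) ?_
      exact (cond_elbow (fun h' => h (Finset.mem_of_mem_erase h')) w).2 hcond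
  · intro i ih w hw hc hmin
    have hcr : ∀ D' : Finset (ℕ × ℕ), Cond T D' (i + 1) T w ↔ Cond T D' i 0 w := fun D' => by
      unfold Cond
      exact forall₂_congr fun t ht => forall_congr' fun q => by rw [St_row D' T i t q ht]
    have e : D.filter (Reg (i + 1) T) = D.filter (Reg i 0) := by
      refine Finset.filter_congr fun p hp => ?_
      have := hD p hp
      unfold Reg
      omega
    rw [e]
    refine ih w hw ((hcr D).1 hc) ?_
    intro d hd hr hcond
    exact hmin d hd (by unfold Reg at *; omega) ((hcr _).2 hcond)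

/-- Existence of the Demazure product. -/
lemma exists_dem (T : ℕ) (D : Finset (ℕ × ℕ)) (hD : ∀ p ∈ D, p.1 + p.2 + 2 ≤ T) :
    ∀ i, ∃ w : ℕ → ℕ, Function.Injective w ∧ ∀ t, t ≤ T → ∀ q, St D i T t q = rk w q t := by
  refine state_induction T (fun i j => ∃ w : ℕ → ℕ, Function.Injective w ∧
    ∀ t, t ≤ T → ∀ q, St D i j t q = rk w q t) ?_ ?_ ?_
  · exact ⟨id, Function.injective_id, fun t ht q => by rw [St_base D T t q ht, rk_id]⟩
  · rintro i j ⟨w, hw, H⟩
    by_cases h : (i, j) ∈ D
    · have hT : i + j + 2 ≤ T := hD _ h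
      have hc := fun q => rho_cross (E := fun p => p ∉ D) (i := i) (j := j) (not_not.2 h) q
      have key : ∀ q, St D i j (i + j + 1) q =
          rk w q (i + j) + if w (i + j) < q ∧ w (i + j + 1) < q then 1 else 0 := by
        intro q
        have h1 := H (i + j) (by omega) q
        have h2 := H (i + j + 1) (by omega) q
        have h3 := H (i + j + 1 + 1) (by omega) q
        rw [St_prev] at h1
        rw [St_next, rk_succ, rk_succ] at h3
        rw [St_old, rk_succ] at h2
        rw [St_new]
        have := hc q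
        split_ifs at h2 h3 ⊢ <;> omega
      by_cases ha : w (i + j) < w (i + j + 1)
      · refine ⟨w ∘ sw (i + j), hw.comp (sw_inj _), fun t ht q => ?_⟩
        by_cases htt : t = i + j + 1
        · subst htt
          rw [key, rk_sw_mid]
          split_ifs <;> omega
        · rw [St_ne D i j t q htt, rk_sw_ne w q _ t htt, H t ht q]
      · refine ⟨w, hw, fun t ht q => ?_⟩
        by_cases htt : t = i + j + 1
        · subst htt
          rw [key, rk_succ]
          split_ifs <;> omega
        · rw [St_ne D i j t q htt, H t ht q]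
    · exact ⟨w, hw, fun t ht q => by rw [St_elbow h, H t ht q]⟩
  · rintro i ⟨w, hw, H⟩
    exact ⟨w, hw, fun t ht q => by rw [St_row D T i t q ht, H t ht q]⟩

/-- Two minimal sets for the condition given by `D₀` have the same size. -/
lemma card_eq_of_minimal (T : ℕ) (D₀ D : Finset (ℕ × ℕ)) (C : Finset (ℕ × ℕ) → Prop)
    (hC : ∀ D', C D' ↔
      ∀ t, t ≤ T → ∀ q, mc (fun p => p ∉ D') q t 0 ≤ mc (fun p => p ∉ D₀) q t 0)
    (hD₀ : ∀ p ∈ D₀, p.1 + p.2 + 2 ≤ T) (hD : ∀ p ∈ D, p.1 + p.2 + 2 ≤ T)
    (h₀ : ∀ d ∈ D₀, ¬ C (D₀.erase d)) (h1 : C D) (h2 : ∀ d ∈ D, ¬ C (D.erase d)) :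
    D.card = D₀.card := by
  obtain ⟨w, hw, H⟩ := exists_dem T D₀ hD₀ T
  have hcond : ∀ D', Cond T D' T T w ↔ C D' := fun D' => by
    rw [hC]
    unfold Cond
    exact forall₂_congr fun t ht => forall_congr' fun q => by
      rw [St_final D' T t q ht, ← H t ht q, St_final D₀ T t q ht]
  have hf : ∀ D' : Finset (ℕ × ℕ), (∀ p ∈ D', p.1 + p.2 + 2 ≤ T) →
      D'.filter (Reg T T) = D' := fun D' hD' =>
    Finset.filter_true_of_mem fun p hp => by have := hD' p hp; unfold Reg; omega
  have e1 := card_eq_inv T D hD T w hw ((hcond D).2 h1)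
    (fun d hd _ hc => h2 d hd ((hcond _).1 hc))
  have e2 := card_eq_inv T D₀ hD₀ T w hw ((hcond D₀).2 ((hC D₀).2 fun _ _ _ => le_rfl))
    (fun d hd _ hc => h₀ d hd ((hcond _).1 hc))
  rw [hf D hD] at e1
  rw [hf D₀ hD₀] at e2
  rw [e1, e2]

/-- `D` meets every chain of length `k + 1` whose bounding rectangle lies in `S`. -/
def Hits (k : ℕ) (S D : Finset (ℕ × ℕ)) : Prop :=
  ∀ p ∈ S, ¬ Ch (fun x => x ∉ D) (p.2 + 1) (k + 1) (p.1 + 1) 0

lemma col_gap {c : ℕ → ℕ} {L : ℕ} (h : ∀ x y, x < y → y < L → c x < c y) :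
    ∀ x d, x + d < L → c x + d ≤ c (x + d) := by
  intro x d
  induction d with
  | zero => intro _; simp
  | succ d ih =>
    intro hd
    have h1 := ih (by omega)
    have h2 := h (x + d) (x + (d + 1)) (by omega) hd
    omega

lemma row_gap {r : ℕ → ℕ} {L : ℕ} (h : ∀ x y, x < y → y < L → r y < r x) :
    ∀ x d, x + d < L → r (x + d) + d ≤ r x := by
  intro x d
  induction d with
  | zero => intro _; simp
  | succ d ih =>
    intro hd
    have h1 := ih (by omega)
    have h2 := h (x + d) (x + (d + 1)) (by omega) hd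
    omega

theorem purity (k : ℕ) (S D : Finset (ℕ × ℕ))
    (hS : ∀ p ∈ S, ∀ p' : ℕ × ℕ, p'.1 ≤ p.1 → p'.2 ≤ p.2 → p' ∈ S) (hDS : D ⊆ S)
    (h1 : Hits k S D) (h2 : ∀ d ∈ D, ¬ Hits k S (D.erase d)) :
    D.card = (S.filter fun p => k ≤ p.1 ∧ k ≤ p.2).card := by
  obtain ⟨T, hT⟩ : ∃ T, ∀ p ∈ S, p.1 + p.2 + 2 ≤ T := by
    refine ⟨S.sup (fun p => p.1 + p.2 + 2), fun p hp => ?_⟩
    exact Finset.le_sup (f := fun p : ℕ × ℕ => p.1 + p.2 + 2) hp
  set D₀ := S.filter fun p => k ≤ p.1 ∧ (p.1, p.2 + k) ∈ S with hD₀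
  have hcard : D₀.card = (S.filter fun p => k ≤ p.1 ∧ k ≤ p.2).card := by
    refine Finset.card_nbij' (fun p => (p.1, p.2 + k)) (fun p => (p.1, p.2 - k)) ?_ ?_ ?_ ?_
    · rintro ⟨x, y⟩ h
      simp only [hD₀, Finset.coe_filter, Set.mem_ofPred_eq] at h ⊢
      exact ⟨h.2.2, h.2.1, by omega⟩
    · rintro ⟨x, y⟩ h
      simp only [hD₀, Finset.coe_filter, Set.mem_ofPred_eq] at h ⊢
      refine ⟨hS _ h.1 _ le_rfl (by simp), h.2.1, ?_⟩
      rw [Nat.sub_add_cancel h.2.2]
      exact h.1
    · rintro ⟨x, y⟩ _
      simp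
    · rintro ⟨x, y⟩ h
      simp only [Finset.coe_filter, Set.mem_ofPred_eq] at h
      simp only [Nat.sub_add_cancel h.2.2]
  rw [← hcard]
  have hmem : ∀ x y, (x, y) ∈ D₀ ↔ k ≤ x ∧ (x, y + k) ∈ S := by
    intro x y
    simp only [hD₀, Finset.mem_filter]
    exact ⟨fun h => h.2, fun h => ⟨hS _ h.2 _ le_rfl (by simp), h⟩⟩
  refine card_eq_of_minimal T D₀ D (Hits k S) ?_ (fun p hp => hT p (Finset.filter_subset _ _ hp))
    (fun p hp => hT p (hDS hp)) ?_ h1 h2
  · intro D'
    constructor
    · intro H t _ q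
      rw [le_mc_iff]
      obtain ⟨r, c, a1, a2⟩ := ch_mc (fun p => p ∉ D') q t 0
      generalize mc (fun p => p ∉ D') q t 0 = L at a1 a2 ⊢
      have cg := col_gap (fun x y h h' => (a2 x y h h').2)
      have rg := row_gap (fun x y h h' => (a2 x y h h').1)
      refine ⟨fun x => if x + k < L then r x else L - 1 - x,
        fun x => if x + k < L then c (x + k) - k else c (L - 1) - (L - 1 - x), ?_, ?_⟩
      · intro x hx
        by_cases hk : x + k < L
        · simp only [if_pos hk]
          have b1 := a1 x hx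
          have b2 := a1 (x + k) hk
          refine ⟨b1.1, Nat.zero_le _, by omega, ?_⟩
          rw [hmem]
          rintro ⟨_, hh⟩
          have g := cg x k hk
          rw [Nat.sub_add_cancel (by omega)] at hh
          refine H _ hh ⟨fun y => r (x + y), fun y => c (x + y), ?_, ?_⟩
          · intro y hy
            have g1 := rg x y (by omega)
            have g2 := cg (x + y) (k - y) (by omega)
            have e : x + y + (k - y) = x + k := by omega
            rw [e] at g2
            refine ⟨?_, Nat.zero_le _, ?_, (a1 (x + y) (by omega)).2.2.2⟩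
            · show r (x + y) < r x + 1
              omega
            · show c (x + y) < c (x + k) + 1
              omega
          · intro y z hyz hz
            exact a2 (x + y) (x + z) (by omega) (by omega)
        · simp only [if_neg hk]
          have b1 := a1 0 (by omega)
          have b2 := a1 (L - 1) (by omega)
          have g1 := rg 0 (L - 1) (by omega)
          refine ⟨by omega, Nat.zero_le _, by omega, ?_⟩
          rw [hmem]
          omega
      · intro x y hxy hy
        by_cases hky : y + k < L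
        · simp only [if_pos hky, if_pos (show x + k < L by omega)]
          have b1 := a2 x y hxy hy
          have b2 := a2 (x + k) (y + k) (by omega) hky
          have g := cg x k (by omega)
          omega
        · by_cases hkx : x + k < L
          · simp only [if_neg hky, if_pos hkx]
            have g1 := rg x (L - 1 - x) (by omega)
            have g2 := cg (x + k) (L - 1 - (x + k)) (by omega)
            have g3 := cg x k (by omega)
            have e : x + k + (L - 1 - (x + k)) = L - 1 := by omega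
            rw [e] at g2
            omega
          · simp only [if_neg hky, if_neg hkx]
            have g2 := cg 0 (L - 1) (by omega)
            rw [Nat.zero_add] at g2
            omega
    · intro H p hp hch
      have h3 := ((le_mc_iff _ _ _ _ _).2 hch).trans
        (H (p.1 + 1) (by have := hT p hp; omega) (p.2 + 1))
      rw [le_mc_iff] at h3
      obtain ⟨r, c, a1, a2⟩ := h3
      have cg := col_gap (fun x y h h' => (a2 x y h h').2) 0 k (by omega)
      have rg := row_gap (fun x y h h' => (a2 x y h h').1) 0 k (by omega)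
      rw [Nat.zero_add] at cg rg
      have b1 := a1 0 (by omega)
      have b2 := a1 k (by omega)
      refine b1.2.2.2 ((hmem _ _).2 ⟨by omega, hS p hp _ ?_ ?_⟩)
      · show r 0 ≤ p.1
        omega
      · show c 0 + k ≤ p.2
        omega
  · rintro ⟨i, j⟩ hd H
    obtain ⟨b1, b2⟩ := (hmem i j).1 hd
    refine H _ b2 ⟨fun x => if x = 0 then i else k - x, fun x => j + x, ?_, ?_⟩
    · intro x hx
      by_cases h0 : x = 0
      · subst h0
        simp
      · simp only [if_neg h0]
        refine ⟨by omega, Nat.zero_le _, by omega, fun hh => ?_⟩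
        have := ((hmem _ _).1 (Finset.mem_of_mem_erase hh)).1
        omega
    · intro x y hxy hy
      simp only [if_neg (show y ≠ 0 by omega)]
      split_ifs <;> omega

end Pool.Agent.P.MP_eab1c6_co
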